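import Pool.Agent.Work.RG.Final

/-!
For infinitely many `n`, almost all labelled graphs on `n` vertices have no maximizing standard
simple restraint that is a minimal colouring. Hence it is false that for almost all graphs every
maximizing standard simple restraint is a minimal colouring.
-/

set_option autoImplicit false

open Filter

namespace Pool.Agent.Results.MP_004c3d_co.Disproof

/-- The map `r` is a proper colouring of the graph `G`. -/
def IsProperColouring {V : Type} (G : SimpleGraph V) (r : V → ℕ+) : Prop :=
  ∀ u v, G.Adj u v → r u ≠ r v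

/-- `restraintCount G r x` is the number of proper colourings `c` of `G` with colours
`1, …, x` such that `c v ≠ r v` for every vertex `v`. -/
noncomputable def restraintCount {V : Type} (G : SimpleGraph V) (r : V → ℕ+) (x : ℕ) : ℕ :=
  Nat.card {c : V → ℕ+ // (∀ v, (c v : ℕ) ≤ x) ∧ IsProperColouring G c ∧ ∀ v, c v ≠ r v}

/-- The standard simple restraint `r` is maximizing for `G`: for every standard simple restraint
`r'` and all sufficiently large `x` the count for `r` is at least the count for `r'`. -/
def IsMaximizing {V : Type} (G : SimpleGraph V) (r : V → ℕ+) : Prop :=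
  ∀ r' : V → ℕ+, ∀ᶠ x in atTop, restraintCount G r' x ≤ restraintCount G r x

/-- The restraint `r` is a minimal colouring of `G`: a proper colouring with exactly `χ(G)`
colours. -/
def IsMinimalColouring {V : Type} (G : SimpleGraph V) (r : V → ℕ+) : Prop :=
  IsProperColouring G r ∧ (Set.range r).encard = G.chromaticNumber

/-- The proportion of the labelled graphs on `n` vertices that have the property `P n`. -/
noncomputable def proportion (P : (n : ℕ) → SimpleGraph (Fin n) → Prop) (n : ℕ) : ℝ :=
  (Nat.card {G : SimpleGraph (Fin n) // P n G} : ℝ) / (Nat.card (SimpleGraph (Fin n)) : ℝ)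

/-- A property holds for almost all graphs if its proportion tends to `1`. -/
def AlmostAll (P : (n : ℕ) → SimpleGraph (Fin n) → Prop) : Prop :=
  Tendsto (proportion P) atTop (nhds 1)

theorem count_eq {V : Type} [Fintype V] [DecidableEq V] (G : SimpleGraph V) (r : V → ℕ+) (x : ℕ) :
    restraintCount G r x = Pool.RG.rcount G (fun v => (r v).natPred) x := by
  unfold restraintCount Pool.RG.rcount
  apply Nat.card_congr
  refine ⟨fun c => ⟨fun v => ⟨(c.1 v).natPred, ?_⟩, ?_, ?_⟩,
    fun c => ⟨fun v => (c.1 v : ℕ).succPNat, ?_, ?_, ?_⟩, ?_, ?_⟩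
  · have h1 := c.2.1 v
    have h2 := PNat.natPred_add_one (c.1 v)
    omega
  · intro u v huv h
    apply c.2.2.1 u v huv
    rw [Fin.mk.injEq] at h
    exact PNat.natPred_injective h
  · intro v h
    exact c.2.2.2 v (PNat.natPred_injective h)
  · intro v
    have := (c.1 v).2
    rw [Nat.succPNat_coe]
    omega
  · intro u v huv h
    apply c.2.1 u v huv
    apply Fin.ext
    exact Nat.succPNat_injective h
  · intro v h
    apply c.2.2 v
    show (c.1 v : ℕ) = (r v).natPred
    rw [← h, Nat.natPred_succPNat]
  · intro c
    apply Subtype.ext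
    funext v
    exact PNat.succPNat_natPred (c.1 v)
  · intro c
    apply Subtype.ext
    funext v
    apply Fin.ext
    exact Nat.natPred_succPNat _

theorem max_iff {V : Type} [Fintype V] [DecidableEq V] (G : SimpleGraph V) (r : V → ℕ+) :
    IsMaximizing G r ↔ Pool.RG.IsMaximizing G (fun v => (r v).natPred) := by
  unfold IsMaximizing Pool.RG.IsMaximizing
  constructor
  · intro h r'
    have h1 := h (fun v => (r' v).succPNat)
    simp only [count_eq, Nat.natPred_succPNat] at h1
    exact h1
  · intro h r'
    simp only [count_eq]
    exact h _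

theorem proper_iff {V : Type} (G : SimpleGraph V) (r : V → ℕ+) :
    IsProperColouring G r ↔ Pool.RG.IsProper G (fun v => (r v).natPred) := by
  unfold IsProperColouring Pool.RG.IsProper
  constructor
  · intro h u v huv h'
    exact h u v huv (PNat.natPred_injective h')
  · intro h u v huv h'
    exact h u v huv (congrArg PNat.natPred h')

theorem min_iff {V : Type} (G : SimpleGraph V) (r : V → ℕ+) :
    IsMinimalColouring G r ↔ Pool.RG.IsMinimalColouring G (fun v => (r v).natPred) := by
  unfold IsMinimalColouring Pool.RG.IsMinimalColouring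
  rw [proper_iff]
  have h : (Set.range (fun v => (r v).natPred)).encard = (Set.range r).encard := by
    have : Set.range (fun v => (r v).natPred) = PNat.natPred '' (Set.range r) := by
      ext y
      simp
    rw [this]
    exact PNat.natPred_injective.encard_image _
  rw [h]

/-- There are arbitrarily large `n` such that all but an arbitrarily small proportion of the
labelled graphs on `n` vertices have a maximizing standard simple restraint and none that is a
minimal colouring; in particular it is not true that for almost all graphs every maximizing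
standard simple restraint is a minimal colouring. -/
theorem result :
    (∀ δ : ℝ, 0 < δ → ∀ N : ℕ, ∃ n, N ≤ n ∧
      1 - δ ≤ proportion (fun _ G => (∃ r, IsMaximizing G r) ∧
        ∀ r, IsMaximizing G r → ¬ IsMinimalColouring G r) n) ∧
    ¬ AlmostAll (fun _ G => ∀ r, IsMaximizing G r → IsMinimalColouring G r) := by
  have key : ∀ δ : ℝ, 0 < δ → ∀ N : ℕ, ∃ n, N ≤ n ∧
      1 - δ ≤ proportion (fun _ G => (∃ r, IsMaximizing G r) ∧
        ∀ r, IsMaximizing G r → ¬ IsMinimalColouring G r) n := by
    intro δ hδ N
    obtain ⟨n, hn, h⟩ := Pool.RG.main_prob δ hδ N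
    refine ⟨n, hn, h.trans ?_⟩
    show Pool.RG.pr n _ ≤ Pool.RG.pr n _
    apply Pool.RG.pr_mono
    intro G hG
    constructor
    · obtain ⟨r, hr⟩ := Pool.RG.exists_maximizing G
      refine ⟨fun v => (r v).succPNat, ?_⟩
      rw [max_iff]
      simpa only [Nat.natPred_succPNat] using hr
    · intro r hr hmin
      exact hG _ ((max_iff G r).1 hr) ((min_iff G r).1 hmin)
  refine ⟨key, ?_⟩
  intro hall
  unfold AlmostAll at hall
  have h1 : ∀ᶠ n in atTop, 1 / 2 < proportion
      (fun _ G => ∀ r, IsMaximizing G r → IsMinimalColouring G r) n :=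
    hall.eventually (lt_mem_nhds (by norm_num))
  obtain ⟨N, hN⟩ := eventually_atTop.1 h1
  obtain ⟨n, hn, h2⟩ := key (1 / 2) (by norm_num) N
  have h3 := hN n hn
  have h4 : proportion (fun _ G => ∀ r, IsMaximizing G r → IsMinimalColouring G r) n ≤
      1 - proportion (fun _ G => (∃ r, IsMaximizing G r) ∧
        ∀ r, IsMaximizing G r → ¬ IsMinimalColouring G r) n := by
    show Pool.RG.pr n _ ≤ 1 - Pool.RG.pr n _
    rw [← Pool.RG.pr_not]
    apply Pool.RG.pr_mono
    rintro G hG ⟨⟨r, hr⟩, hno⟩
    exact hno r hr (hG r hr)
  linarith

end Pool.Agent.Results.MP_004c3d_co.Disproof
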